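import Pool.Agent.Y718.SA5
import Pool.Agent.Y718.GY

/-!
# Weak approximation near rational points of K3 surfaces `w² = f(x, y)` with two genus one fibrations

`f` is a polynomial over `ℚ` in `n` variables. A vector `v ∈ ℚⁿ` is a direction of degree at most `d` if `f` has
degree at most `d` on all lines of direction `v`. If `n = 2` and there are two independent directions of degree
at most `4` (for instance if `f` has degree at most `4` in `x` and in `y`), then `w² = f(x, y)` is a double cover of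
`ℙ¹ × ℙ¹` branched along a curve of bidegree `(4, 4)`, in general a K3 surface with two fibrations in curves of genus
one.

(1) A rational point `(w, z)`, `w ≠ 0`, is an interior point of the closure of the set of rational points in the
product of the sets of real points and of `p i`-adic points, for all finite sets of places, if for a basis `b` of
`ℚⁿ` of directions of degree at most `4` the difference of the points `(0, w)` and `(0, -w)` of the curve
`s² = f(z + t b_k)` has infinite order in the Jacobian, for each `k` (no condition, if `b_k` is of degree at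
most `2`).

(2) The difference has infinite order if for some odd prime number `p` the coefficients of
`q(t) = f(z + t b_k)` are `p`-integral, `q'(0)` is a `p`-adic unit, and `q(0)` is not.

(3) Hence the point `(w, 0, 0)` of the surface `w² = ∑ a_ij x^i y^j`, with integers `a_ij` and `a_00 = w² ≠ 0`, has
this property, if `w` is divisible by odd prime numbers `p`, `q`, which do not divide `a_10` and `a_01`, respectively
(and the two curves `s² = f(t, 0)` and `s² = f(0, t)` have nonsingular Jacobians).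
-/

set_option autoImplicit false

namespace Pool.Agent.Results.MP_ed3816_nt.DoubleCoversOfQuadrics

open MvPolynomial Pool.Agent.Y718.X

/-- The rational point `(w, z)` of the affine variety `w² = f(z)` is an interior point of the
closure of the set of the rational points in the product of the sets of real points and of
`p i`-adic points, for all finite families of different prime numbers `p i`. -/
def WeakApproximationNear {n : ℕ} (f : MvPolynomial (Fin n) ℚ) (w : ℚ) (z : Fin n → ℚ) : Prop :=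
  ∀ (m : ℕ) (p : Fin m → ℕ) [∀ i, Fact (p i).Prime], Function.Injective p →
    ∃ ε : ℝ, 0 < ε ∧
      ∀ (y : ℝ) (x : Fin n → ℝ) (y' : ∀ i, ℚ_[p i]) (x' : ∀ i, Fin n → ℚ_[p i]),
        y ^ 2 = aeval x f → (∀ i, y' i ^ 2 = aeval (x' i) f) →
        (|y - w| < ε ∧ ∀ j, |x j - z j| < ε) →
        (∀ i, ‖y' i - w‖ < ε ∧ ∀ j, ‖x' i j - z j‖ < ε) →
        ∀ η : ℝ, 0 < η → ∃ (w₁ : ℚ) (z₁ : Fin n → ℚ), w₁ ^ 2 = eval z₁ f ∧
          (|w₁ - y| < η ∧ ∀ j, |z₁ j - x j| < η) ∧
          ∀ i, ‖w₁ - y' i‖ < η ∧ ∀ j, ‖z₁ j - x' i j‖ < η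

/-- The polynomial `f(z + t v)` in `t`. -/
noncomputable def restriction {n : ℕ} (f : MvPolynomial (Fin n) ℚ) (z v : Fin n → ℚ) :
    Polynomial ℚ :=
  aeval (fun k => Polynomial.C (z k) + Polynomial.C (v k) * Polynomial.X) f

/-- The polynomial `f` has degree at most `d` on all lines of direction `v`. -/
def DegreeAtMost {n : ℕ} (d : ℕ) (f : MvPolynomial (Fin n) ℚ) (v : Fin n → ℚ) : Prop :=
  ∀ z : Fin n → ℚ, (restriction f z v).natDegree ≤ d

/-- The Jacobian of the curve `s² = q(t)`, where `q` is a polynomial of degree at most `4`. -/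
def jacobian (q : Polynomial ℚ) : WeierstrassCurve ℚ where
  a₁ := 0
  a₂ := q.coeff 2
  a₃ := 0
  a₄ := q.coeff 1 * q.coeff 3 - 4 * q.coeff 0 * q.coeff 4
  a₆ := q.coeff 1 ^ 2 * q.coeff 4 + q.coeff 0 * q.coeff 3 ^ 2 -
    4 * q.coeff 0 * q.coeff 2 * q.coeff 4

/-- The Jacobian is nonsingular, `q(0) = w²` for a rational number `w ≠ 0`, and the difference of
the two points `(0, w)` and `(0, -w)` has infinite order. -/
def InfiniteOrder (q : Polynomial ℚ) : Prop :=
  (jacobian q).Δ ≠ 0 ∧ ∃ (w x y : ℚ) (h : (jacobian q).toAffine.Nonsingular x y),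
    w ≠ 0 ∧ w ^ 2 = q.coeff 0 ∧ x = q.coeff 1 ^ 2 / (4 * w ^ 2) - q.coeff 2 ∧
    y = (q.coeff 1 * x + 2 * w ^ 2 * q.coeff 3) / (2 * w) ∧
    ∀ m : ℕ, m ≠ 0 → m • WeierstrassCurve.Affine.Point.some x y h ≠ 0

/-- The coefficients of `q` are `p`-integral, `q'(0)` is a `p`-adic unit, `q(0)` is not, and the Jacobian is
nonsingular. -/
def Criterion (q : Polynomial ℚ) (p : ℕ) : Prop :=
  p.Prime ∧ 3 ≤ p ∧ (jacobian q).Δ ≠ 0 ∧ (∀ i, padicNorm p (q.coeff i) ≤ 1) ∧
    padicNorm p (q.coeff 1) = 1 ∧ padicNorm p (q.coeff 0) < 1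

/-- The polynomial `∑ a_ij x^i y^j`. -/
noncomputable def poly (a : Fin 5 → Fin 5 → ℤ) : MvPolynomial (Fin 2) ℚ :=
  ∑ i, ∑ j, C (a i j : ℚ) * X 0 ^ (i : ℕ) * X 1 ^ (j : ℕ)

/-- The polynomial `f(z₀ + t, z₁)` in `t`, for `f = ∑ a_ij x^i y^j`. -/
noncomputable def lineX (a : Fin 5 → Fin 5 → ℤ) (z : Fin 2 → ℤ) : Polynomial ℤ :=
  ∑ i, ∑ j, Polynomial.C (a i j * z 1 ^ (j : ℕ)) * (Polynomial.X + Polynomial.C (z 0)) ^ (i : ℕ)

/-- The polynomial `f(z₀, z₁ + t)` in `t`, for `f = ∑ a_ij x^i y^j`. -/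
noncomputable def lineY (a : Fin 5 → Fin 5 → ℤ) (z : Fin 2 → ℤ) : Polynomial ℤ :=
  ∑ i, ∑ j, Polynomial.C (a i j * z 0 ^ (i : ℕ)) * (Polynomial.X + Polynomial.C (z 1)) ^ (j : ℕ)

lemma near_of_int {n : ℕ} {f : MvPolynomial (Fin n) ℚ} {w : ℚ} {z : Fin n → ℚ}
    (hw : w ^ 2 = eval z f)
    (h : ∀ {ι : Type} [Finite ι] [Nonempty ι] {p : ι → ℕ} [∀ i, Fact (p i).Prime]
      (_ : Function.Injective p) (σ : ∀ i, ℚ →+* ℚ_[p i]) (τ : ℚ →+* ℝ),
      Pool.Agent.Y720.MZ.Int (Pool.Agent.Y720.MZ.sv σ τ) f z w) :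
    WeakApproximationNear f w z := by
  have hr : ∀ x : Fin n → ℝ, (aeval x f : ℝ) = eval x (map (Rat.castHom ℝ) f) := by
    intro x
    rw [eval_map, aeval_def]
    rfl
  have hpr : ∀ (q : ℕ) [Fact q.Prime] (x : Fin n → ℚ_[q]), (aeval x f : ℚ_[q]) =
      eval x (map (Rat.castHom ℚ_[q]) f) := by
    intro q _ x
    rw [eval_map, aeval_def]
    rfl
  have main : ∀ (m : ℕ) (p : Fin (m + 1) → ℕ) [∀ i, Fact (p i).Prime], Function.Injective p →
      ∃ ε : ℝ, 0 < ε ∧
        ∀ (y : ℝ) (x : Fin n → ℝ) (y' : ∀ i, ℚ_[p i]) (x' : ∀ i, Fin n → ℚ_[p i]),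
          y ^ 2 = aeval x f → (∀ i, y' i ^ 2 = aeval (x' i) f) →
          (|y - w| < ε ∧ ∀ j, |x j - z j| < ε) →
          (∀ i, ‖y' i - w‖ < ε ∧ ∀ j, ‖x' i j - z j‖ < ε) →
          ∀ η : ℝ, 0 < η → ∃ (w₁ : ℚ) (z₁ : Fin n → ℚ), w₁ ^ 2 = eval z₁ f ∧
            (|w₁ - y| < η ∧ ∀ j, |z₁ j - x j| < η) ∧
            ∀ i, ‖w₁ - y' i‖ < η ∧ ∀ j, ‖z₁ j - x' i j‖ < η := by
    intro m p _ hp
    obtain ⟨ε, hε, hh⟩ := h hp (fun i => Rat.castHom ℚ_[p i]) (Rat.castHom ℝ)
    refine ⟨ε, hε, fun y x y' x' hy hy' hn hn' η hη => ?_⟩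
    obtain ⟨z₁, w₁, h1, h2⟩ := hh (fun v => match v with
      | none => x
      | some i => x' i) (fun v => match v with
      | none => y
      | some i => y' i) (by
        rintro (_ | i)
        · exact hy.trans (hr x)
        · exact (hy' i).trans (hpr _ _)) (by
        rintro (_ | i)
        · refine ⟨fun a => ?_, ?_⟩
          · have := hn.2 a
            rw [abs_sub_comm] at this
            exact this
          · have := hn.1
            rw [abs_sub_comm] at this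
            exact this
        · refine ⟨fun a => ?_, ?_⟩
          · have := (hn' i).2 a
            rw [norm_sub_rev] at this
            exact this
          · have := (hn' i).1
            rw [norm_sub_rev] at this
            exact this) η hη
    exact ⟨w₁, z₁, h1, ⟨(h2 none).2, (h2 none).1⟩, fun i => ⟨(h2 (some i)).2, (h2 (some i)).1⟩⟩
  intro m p _ hp
  rcases m with _ | m
  · have : Fact (Nat.Prime 2) := ⟨Nat.prime_two⟩
    obtain ⟨ε, hε, hh⟩ := main 0 (fun _ => 2) (fun i j _ => by omega)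
    refine ⟨ε, hε, fun y x y' x' hy hy' hn hn' η hη => ?_⟩
    obtain ⟨w₁, z₁, h1, h2, -⟩ := hh y x (fun _ => w) (fun _ j => z j) hy (fun i => by
      rw [hpr]
      have e : (fun j => ((z j : ℚ) : ℚ_[2])) = fun j => Rat.castHom ℚ_[2] (z j) := rfl
      have e2 : eval (fun j => Rat.castHom ℚ_[2] (z j)) (map (Rat.castHom ℚ_[2]) f) =
          Rat.castHom ℚ_[2] (eval z f) := by
        rw [eval_map, ← eval₂_id, eval₂_comp_left, RingHom.comp_id]
        rfl
      rw [e, e2, ← hw]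
      simp) hn (fun i => ⟨by simpa using hε, fun j => by simpa using hε⟩) η hη
    exact ⟨w₁, z₁, h1, h2, fun i => i.elim0⟩
  · exact main m p hp

lemma part_one (n : ℕ) (f : MvPolynomial (Fin n) ℚ) (w : ℚ) (z : Fin n → ℚ) (b : Fin n → Fin n → ℚ)
    (hw : w ≠ 0) (hwz : w ^ 2 = eval z f) (hb : LinearIndependent ℚ b)
    (h : ∀ k, DegreeAtMost 2 f (b k) ∨ DegreeAtMost 4 f (b k) ∧ InfiniteOrder (restriction f z (b k))) :
    WeakApproximationNear f w z := by
  refine near_of_int hwz ?_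
  intro ι _ _ p _ hp σ τ
  refine int_dirs hp σ τ hb (fun k => ?_) hw hwz
  rcases h k with h1 | ⟨h0, h1⟩
  · exact Or.inl h1
  · exact Or.inr ⟨h0, (infO_iff _).mp h1⟩

lemma crit_inf {q : Polynomial ℚ} {p : ℕ} (h : Criterion q p) {w : ℚ} (hw0 : w ≠ 0) (hw : w ^ 2 = q.coeff 0) :
    InfiniteOrder q := by
  obtain ⟨hp, h3, hΔ, c1, c2, c3⟩ := h
  have : Fact p.Prime := ⟨hp⟩
  have e : ∀ x : ℚ, vp p x = ((padicNorm p x : ℚ) : ℝ) := fun x =>
    Rat.AbsoluteValue.padic_eq_padicNorm p x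
  refine (infO_iff _).mpr (crit p h3 (w := w) (fun i => ?_) ?_ ?_ hw0 hw ((jac_Δ _).1 hΔ))
  · rw [e]; exact_mod_cast c1 i
  · rw [e]; exact_mod_cast c2
  · rw [e]; exact_mod_cast c3

lemma restr (m : ℤ) (a : Fin 5 → Fin 5 → ℤ) (z v : Fin 2 → ℚ) :
    restriction (C (m : ℚ) * poly a) z v = Polynomial.C (m : ℚ) * ∑ i, ∑ j, Polynomial.C (a i j : ℚ) *
      (Polynomial.C (z 0) + Polynomial.C (v 0) * Polynomial.X) ^ (i : ℕ) *
      (Polynomial.C (z 1) + Polynomial.C (v 1) * Polynomial.X) ^ (j : ℕ) := by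
  unfold restriction poly
  simp only [map_mul, map_sum, map_pow, aeval_X, aeval_C]
  rfl

lemma deg_lin (c d : ℚ) : (Polynomial.C c + Polynomial.C d * Polynomial.X).natDegree ≤ 1 := by
  rw [add_comm]
  exact Polynomial.natDegree_linear_le

lemma deg0 (m : ℤ) (a : Fin 5 → Fin 5 → ℤ) : DegreeAtMost 4 (C (m : ℚ) * poly a) ![1, 0] := by
  intro z
  rw [restr]
  refine (Polynomial.natDegree_C_mul_le _ _).trans ?_
  refine Polynomial.natDegree_sum_le_of_forall_le _ _ fun i _ => ?_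
  refine Polynomial.natDegree_sum_le_of_forall_le _ _ fun j _ => ?_
  have h1 : (Polynomial.C (z 1) + Polynomial.C ((![1, 0] : Fin 2 → ℚ) 1) * Polynomial.X) ^ (j : ℕ) =
      Polynomial.C (z 1 ^ (j : ℕ)) := by
    simp
  rw [h1]
  refine (Polynomial.natDegree_mul_C_le _ _).trans ?_
  refine (Polynomial.natDegree_C_mul_le _ _).trans ?_
  refine (Polynomial.natDegree_pow_le).trans ?_
  have h2 := deg_lin (z 0) ((![1, 0] : Fin 2 → ℚ) 0)
  have h3 : (i : ℕ) ≤ 4 := by omega
  calc _ ≤ 4 * 1 := Nat.mul_le_mul h3 h2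
    _ = 4 := rfl

lemma deg1 (m : ℤ) (a : Fin 5 → Fin 5 → ℤ) : DegreeAtMost 4 (C (m : ℚ) * poly a) ![0, 1] := by
  intro z
  rw [restr]
  refine (Polynomial.natDegree_C_mul_le _ _).trans ?_
  refine Polynomial.natDegree_sum_le_of_forall_le _ _ fun i _ => ?_
  refine Polynomial.natDegree_sum_le_of_forall_le _ _ fun j _ => ?_
  have h1 : (Polynomial.C (z 0) + Polynomial.C ((![0, 1] : Fin 2 → ℚ) 0) * Polynomial.X) ^ (i : ℕ) =
      Polynomial.C (z 0 ^ (i : ℕ)) := by
    simp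
  rw [h1, ← Polynomial.C_mul]
  refine (Polynomial.natDegree_C_mul_le _ _).trans ?_
  refine (Polynomial.natDegree_pow_le).trans ?_
  have h2 := deg_lin (z 1) ((![0, 1] : Fin 2 → ℚ) 1)
  have h3 : (j : ℕ) ≤ 4 := by omega
  calc _ ≤ 4 * 1 := Nat.mul_le_mul h3 h2
    _ = 4 := rfl

lemma restr0 (m : ℤ) (a : Fin 5 → Fin 5 → ℤ) (z : Fin 2 → ℤ) :
    restriction (C (m : ℚ) * poly a) (fun k => (z k : ℚ)) ![1, 0] =
      (Polynomial.C m * lineX a z).map (Int.castRingHom ℚ) := by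
  rw [restr]
  simp [lineX, Polynomial.map_sum, add_comm, mul_assoc, mul_comm, mul_left_comm]

lemma restr1 (m : ℤ) (a : Fin 5 → Fin 5 → ℤ) (z : Fin 2 → ℤ) :
    restriction (C (m : ℚ) * poly a) (fun k => (z k : ℚ)) ![0, 1] =
      (Polynomial.C m * lineY a z).map (Int.castRingHom ℚ) := by
  rw [restr]
  simp [lineY, Polynomial.map_sum, add_comm, mul_assoc, mul_comm, mul_left_comm]

lemma crit_int {g : Polynomial ℤ} {m n : ℤ} {p : ℕ} (hp : p.Prime) (h3 : 3 ≤ p) (h0 : g.coeff 0 = m * n ^ 2)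
    (hn : (p : ℤ) ∣ n) (h1 : ¬ (p : ℤ) ∣ m * g.coeff 1)
    (hΔ : (jacobian ((Polynomial.C m * g).map (Int.castRingHom ℚ))).Δ ≠ 0) :
    Criterion ((Polynomial.C m * g).map (Int.castRingHom ℚ)) p := by
  have : Fact p.Prime := ⟨hp⟩
  refine ⟨hp, h3, hΔ, fun i => ?_, ?_, ?_⟩
  · rw [Polynomial.coeff_map]
    exact padicNorm.of_int _
  · rw [Polynomial.coeff_map, Polynomial.coeff_C_mul]
    exact (padicNorm.int_eq_one_iff _).2 h1
  · rw [Polynomial.coeff_map, Polynomial.coeff_C_mul, h0]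
    refine (padicNorm.int_lt_one_iff _).2 ?_
    obtain ⟨k, rfl⟩ := hn
    exact ⟨m * (m * ((p : ℤ) * k ^ 2)), by ring⟩

/-- **Weak approximation near rational points of K3 surfaces with two genus one fibrations.** -/
theorem result :
    -- (1) the rational points which give points of infinite order in the directions of a basis
    (∀ (n : ℕ) (f : MvPolynomial (Fin n) ℚ) (w : ℚ) (z : Fin n → ℚ) (b : Fin n → Fin n → ℚ),
      w ≠ 0 → w ^ 2 = eval z f → LinearIndependent ℚ b →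
      (∀ k, DegreeAtMost 2 f (b k) ∨ DegreeAtMost 4 f (b k) ∧ InfiniteOrder (restriction f z (b k))) →
      WeakApproximationNear f w z) ∧
    -- (2) a criterion for points of infinite order
    (∀ (q : Polynomial ℚ) (p : ℕ) (w : ℚ), w ≠ 0 → w ^ 2 = q.coeff 0 → Criterion q p →
      InfiniteOrder q) ∧
    -- (3) the surfaces `m w² = f(x, y)`, where `f` has degree at most `4` in `x` and in `y`
    (∀ (a : Fin 5 → Fin 5 → ℤ) (z : Fin 2 → ℤ) (m n : ℤ), m ≠ 0 → n ≠ 0 →
      m * n ^ 2 = ∑ i, ∑ j, a i j * z 0 ^ (i : ℕ) * z 1 ^ (j : ℕ) →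
      (∃ p : ℕ, p.Prime ∧ 3 ≤ p ∧ (p : ℤ) ∣ n ∧ ¬ (p : ℤ) ∣ m * (lineX a z).coeff 1) →
      (∃ p : ℕ, p.Prime ∧ 3 ≤ p ∧ (p : ℤ) ∣ n ∧ ¬ (p : ℤ) ∣ m * (lineY a z).coeff 1) →
      (jacobian ((Polynomial.C m * lineX a z).map (Int.castRingHom ℚ))).Δ ≠ 0 →
      (jacobian ((Polynomial.C m * lineY a z).map (Int.castRingHom ℚ))).Δ ≠ 0 →
      WeakApproximationNear (C (m : ℚ) * poly a) (m * n) (fun k => (z k : ℚ))) := by
  refine ⟨part_one, fun q p w hw0 hw h => crit_inf h hw0 hw, ?_⟩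
  rintro a z m n hm hn hz ⟨p, hp, hp3, hpn, hpc⟩ ⟨q, hq, hq3, hqn, hqc⟩ hX hY
  have e0 : (lineX a z).coeff 0 = m * n ^ 2 := by
    rw [hz, Polynomial.coeff_zero_eq_eval_zero]
    simp only [lineX, Polynomial.eval_finsetSum, Polynomial.eval_mul, Polynomial.eval_pow,
      Polynomial.eval_add, Polynomial.eval_X, Polynomial.eval_C]
    refine Finset.sum_congr rfl fun i _ => Finset.sum_congr rfl fun j _ => ?_
    ring
  have e1 : (lineY a z).coeff 0 = m * n ^ 2 := by
    rw [hz, Polynomial.coeff_zero_eq_eval_zero]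
    simp only [lineY, Polynomial.eval_finsetSum, Polynomial.eval_mul, Polynomial.eval_pow,
      Polynomial.eval_add, Polynomial.eval_X, Polynomial.eval_C]
    refine Finset.sum_congr rfl fun i _ => Finset.sum_congr rfl fun j _ => ?_
    ring
  have hwne : (m * n : ℚ) ≠ 0 := by exact_mod_cast mul_ne_zero hm hn
  have hev : ((m : ℚ) * n) ^ 2 = eval (fun k => (z k : ℚ)) (C (m : ℚ) * poly a) := by
    simp only [poly, map_mul, map_sum, map_pow, eval_X, eval_C]
    have : ((m : ℚ) * (n : ℚ) ^ 2) = ∑ i, ∑ j, (a i j : ℚ) * (z 0 : ℚ) ^ (i : ℕ) * (z 1 : ℚ) ^ (j : ℕ) := by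
      exact_mod_cast congrArg (Int.cast : ℤ → ℚ) hz
    rw [← this]
    ring
  refine part_one 2 _ _ _ ![![1, 0], ![0, 1]] hwne hev ?_ ?_
  · rw [LinearIndependent.pair_iff]
    intro s t hst
    have h1 := congrFun hst 0
    have h2 := congrFun hst 1
    simp at h1 h2
    exact ⟨h1, h2⟩
  · intro k
    refine Or.inr ?_
    fin_cases k
    · refine ⟨deg0 m a, ?_⟩
      show InfiniteOrder (restriction (C (m : ℚ) * poly a) (fun k => (z k : ℚ)) ![1, 0])
      rw [restr0]
      refine crit_inf (crit_int hp hp3 e0 hpn hpc hX) hwne ?_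
      rw [Polynomial.coeff_map, Polynomial.coeff_C_mul, e0]
      push_cast
      simp
      ring
    · refine ⟨deg1 m a, ?_⟩
      show InfiniteOrder (restriction (C (m : ℚ) * poly a) (fun k => (z k : ℚ)) ![0, 1])
      rw [restr1]
      refine crit_inf (crit_int hq hq3 e1 hqn hqc hY) hwne ?_
      rw [Polynomial.coeff_map, Polynomial.coeff_C_mul, e1]
      push_cast
      simp
      ring

end Pool.Agent.Results.MP_ed3816_nt.DoubleCoversOfQuadrics
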